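import Pool.Agent.Y489.GE.Stm

/-!
# Project GE: the homotopy between two paths with the same end
-/

set_option autoImplicit false

open Set Topology Filter

namespace Pool.Agent.Y467.GE

open Pool.Agent.Y489.GE

/-- joining two curves of speed at most one -/
theorem lip_join {X : Type} [MetricSpace X] {F G : ℝ → X} {a : ℝ}
    (hF : ∀ s t, dist (F s) (F t) ≤ |s - t|) (hG : ∀ s t, dist (G s) (G t) ≤ |s - t|)
    (h : F a = G a) (s t : ℝ) :
    dist (if s ≤ a then F s else G s) (if t ≤ a then F t else G t) ≤ |s - t| := by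
  by_cases hs : s ≤ a
  · by_cases ht : t ≤ a
    · rw [if_pos hs, if_pos ht]; exact hF s t
    · rw [if_pos hs, if_neg ht]
      have h1 := dist_triangle (F s) (F a) (G t)
      have h2 := hF s a
      have h3 := hG a t
      rw [← h] at h3
      rw [abs_of_nonpos (by linarith)] at h2
      rw [abs_of_nonpos (by linarith)] at h3
      rw [abs_of_nonpos (by linarith)]
      linarith
  · by_cases ht : t ≤ a
    · rw [if_neg hs, if_pos ht]
      have h1 := dist_triangle (G s) (G a) (F t)
      have h2 := hG s a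
      have h3 := hF a t
      rw [h] at h3
      rw [abs_of_nonneg (by linarith)] at h2
      rw [abs_of_nonneg (by linarith)] at h3
      rw [abs_of_nonneg (by linarith)]
      linarith
    · rw [if_neg hs, if_neg ht]; exact hG s t

/-- composition with a function of speed at most one -/
theorem lip_comp {X : Type} [MetricSpace X] {F : ℝ → X} {u : ℝ → ℝ}
    (hF : ∀ s t, dist (F s) (F t) ≤ |s - t|) (hu : ∀ s t, |u s - u t| ≤ |s - t|) (s t : ℝ) :
    dist (F (u s)) (F (u t)) ≤ |s - t| := (hF _ _).trans (hu s t)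

theorem lip_max {u v : ℝ → ℝ} (hu : ∀ s t, |u s - u t| ≤ |s - t|)
    (hv : ∀ s t, |v s - v t| ≤ |s - t|) (s t : ℝ) :
    |max (u s) (v s) - max (u t) (v t)| ≤ |s - t| :=
  (abs_max_sub_max_le_max _ _ _ _).trans (max_le (hu s t) (hv s t))

section

variable {X : Type} [MetricSpace X] {p : X} {a b B : ℝ}

/-- the loop formed by the two paths -/
noncomputable def om (z : ↥(Qa p a b)) : ℝ → X := fun τ =>
  if τ ≤ a then z.1.1 τ else z.1.2 (a + b - τ)

theorem lipc1 (c : ℝ) : ∀ s t : ℝ, |(c - s) - (c - t)| ≤ |s - t| := by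
  intro s t
  rw [show (c - s) - (c - t) = -(s - t) by ring, abs_neg]

theorem lipc2 (c : ℝ) : ∀ s t : ℝ, |(s - c) - (t - c)| ≤ |s - t| := by
  intro s t
  rw [show (s - c) - (t - c) = s - t by ring]

theorem lipc0 (c : ℝ) : ∀ s t : ℝ, |c - c| ≤ |s - t| := by
  intro s t
  rw [sub_self, abs_zero]; exact abs_nonneg _

theorem om_mem (ha : 0 ≤ a) (hb : 0 ≤ b) (z : ↥(Qa p a b)) : om z ∈ Om p (a + b) := by
  obtain ⟨⟨γ, c⟩, ⟨hγ1, hγ2, hγ3⟩, ⟨hc1, hc2, hc3⟩, he⟩ := z
  simp only at hγ1 hγ2 hγ3 hc1 hc2 hc3 he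
  refine ⟨?_, ?_, ?_⟩
  · intro s t
    refine lip_join (F := γ) (G := fun τ => c (a + b - τ)) hγ1
      (lip_comp hc1 (lipc1 (a + b))) ?_ s t
    show γ a = c (a + b - a)
    rw [he]; congr 1; ring
  · intro t ht
    show (if t ≤ a then γ t else c (a + b - t)) = p
    rw [if_pos (ht.trans ha)]
    exact hγ2 t ht
  · intro t ht
    show (if t ≤ a then γ t else c (a + b - t)) = p
    by_cases h : t ≤ a
    · rw [if_pos h]
      have h1 : t = a := by linarith
      have h2 : b ≤ 0 := by linarith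
      rw [h1, he]
      exact hc2 b h2
    · rw [if_neg h]
      exact hc2 _ (by linarith)

theorem om_cont : Continuous (fun z : ↥(Qa p a b) => om z) := by
  refine continuous_pi (fun τ => ?_)
  by_cases h : τ ≤ a
  · have : (fun z : ↥(Qa p a b) => om z τ) = fun z => z.1.1 τ := by
      funext z; simp only [om, if_pos h]
    rw [this]
    exact (continuous_apply τ).comp (continuous_fst.comp continuous_subtype_val)
  · have : (fun z : ↥(Qa p a b) => om z τ) = fun z => z.1.2 (a + b - τ) := by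
      funext z; simp only [om, if_neg h]
    rw [this]
    exact (continuous_apply (a + b - τ)).comp (continuous_snd.comp continuous_subtype_val)

/-- first stage -/
noncomputable def st1 (B : ℝ) (z : ↥(Qa p a b)) (v : ℝ) : ℝ → X := fun τ =>
  if τ ≤ a then z.1.1 τ else z.1.2 (max (b - v) (max (a + b - τ) (τ - B)))

/-- third stage -/
noncomputable def st3 (B : ℝ) (z : ↥(Qa p a b)) (u : ℝ) : ℝ → X := fun τ =>
  z.1.2 (τ - (1 - u) * B)

theorem c_const {c : ℝ → X} (hc : c ∈ Pa p b) {s : ℝ} (hs : b ≤ s) : c s = c b := hc.2.2 s hs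

/-- `c` at `b` -/
theorem end_eq (z : ↥(Qa p a b)) : z.1.1 a = z.1.2 b := z.2.2.2

theorem st1_lip (haB : a + b ≤ B) (hb : 0 ≤ b) (z : ↥(Qa p a b)) {v : ℝ} (hv : 0 ≤ v) (s t : ℝ) :
    dist (st1 B z v s) (st1 B z v t) ≤ |s - t| := by
  have hγ := z.2.1
  have hc := z.2.2.1
  refine lip_join (F := z.1.1) (G := fun τ => z.1.2 (max (b - v) (max (a + b - τ) (τ - B))))
    hγ.1 (lip_comp hc.1 (lip_max (lipc0 (b - v)) (lip_max (lipc1 (a + b)) (lipc2 B)))) ?_ s t
  have h1 : max (b - v) (max (a + b - a) (a - B)) = b := by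
    rw [max_eq_left (by linarith : a - B ≤ a + b - a), max_eq_right (by linarith)]
    ring
  show z.1.1 a = z.1.2 (max (b - v) (max (a + b - a) (a - B)))
  rw [h1]
  exact end_eq z

theorem st1_end (haB : a + b ≤ B) (hb : 0 ≤ b) (z : ↥(Qa p a b)) {v : ℝ} {t : ℝ}
    (ht : B + b ≤ t) : st1 B z v t = z.1.1 a := by
  unfold st1
  by_cases h : t ≤ a
  · rw [if_pos h]
    have : t = a := by linarith
    rw [this]
  · rw [if_neg h, end_eq]
    apply c_const z.2.2.1
    exact le_max_of_le_right (le_max_of_le_right (by linarith))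

theorem st1_zero (z : ↥(Qa p a b)) : st1 B z 0 = z.1.1 := by
  funext τ
  unfold st1
  by_cases h : τ ≤ a
  · rw [if_pos h]
  · rw [if_neg h, z.2.1.2.2 τ (by linarith), end_eq]
    apply c_const z.2.2.1
    rw [sub_zero]
    exact le_max_left _ _

theorem st1_pa (ha : 0 ≤ a) (haB : a + b ≤ B) (hb : 0 ≤ b) (z : ↥(Qa p a b)) {v : ℝ} (hv : 0 ≤ v) :
    st1 B z v ∈ Pa p (B + b) := by
  refine ⟨st1_lip haB hb z hv, ?_, ?_⟩
  · intro t ht
    unfold st1
    rw [if_pos (ht.trans ha)]
    exact z.2.1.2.1 t ht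
  · intro t ht
    rw [st1_end haB hb z ht, st1_end haB hb z le_rfl]

theorem st3_pa (hB : 0 ≤ B) (z : ↥(Qa p a b)) {u : ℝ} (hu0 : 0 ≤ u) (hu : u ≤ 1) :
    st3 B z u ∈ Pa p (B + b) ∧ st3 B z u (B + b) = z.1.1 a := by
  have h1 : 0 ≤ (1 - u) * B := mul_nonneg (by linarith) hB
  have h2 : (1 - u) * B ≤ B := by nlinarith
  have hend : ∀ t, B + b ≤ t → st3 B z u t = z.1.1 a := by
    intro t ht
    unfold st3
    rw [end_eq]
    exact c_const z.2.2.1 (by linarith)
  refine ⟨⟨fun s t => lip_comp (F := z.1.2) (u := fun τ => τ - (1 - u) * B) z.2.2.1.1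
    (lipc2 _) s t, ?_, ?_⟩, hend _ le_rfl⟩
  · intro t ht
    exact z.2.2.1.2.1 _ (by linarith)
  · intro t ht
    rw [hend t ht, hend _ le_rfl]

end

/-- clamping -/
theorem cl_mem (x : ℝ) : 0 ≤ max 0 (min 1 x) ∧ max 0 (min 1 x) ≤ 1 :=
  ⟨le_max_left _ _, max_le zero_le_one (min_le_left _ _)⟩

theorem cl_zero {x : ℝ} (h : x ≤ 0) : max 0 (min 1 x) = 0 :=
  max_eq_left ((min_le_right _ _).trans h)

theorem cl_one {x : ℝ} (h : 1 ≤ x) : max 0 (min 1 x) = 1 := by
  rw [min_eq_left h]; exact max_eq_right zero_le_one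

theorem t_CP : S_CP := by
  classical
  intro X _ p a b B ha hb haB hOm
  obtain ⟨H, hH1, hH2, hH3, hH4, hH5⟩ := hOm
  have hB : 0 ≤ B := by linarith
  have haB' : a ≤ B := by linarith
  set w : ↥(Qa p a b) → ↥(Om p (a + b)) := fun z => ⟨om z, om_mem ha hb z⟩ with hw
  have hwc : Continuous w := om_cont.subtype_mk _
  -- second stage
  set st2 : ↥(Qa p a b) → ℝ → ℝ → X := fun z s τ => if τ ≤ B then H (w z) s τ else z.1.2 (τ - B)
    with hst2
  have st2_end : ∀ z s t, B + b ≤ t → st2 z s t = z.1.1 a := by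
    intro z s t ht
    simp only [hst2]
    by_cases h : t ≤ B
    · rw [if_pos h, (hH2 (w z) s).2.2 t (by linarith), end_eq]
      exact (z.2.2.1.2.1 b (by linarith)).symm
    · rw [if_neg h, end_eq]
      exact c_const z.2.2.1 (by linarith)
  have st2_pa : ∀ z s, st2 z s ∈ Pa p (B + b) := by
    intro z s
    refine ⟨?_, ?_, ?_⟩
    · refine lip_join (F := H (w z) s) (G := fun τ => z.1.2 (τ - B)) (hH2 (w z) s).1
        (lip_comp z.2.2.1.1 (lipc2 B)) ?_
      show H (w z) s B = z.1.2 (B - B)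
      rw [(hH2 (w z) s).2.2 B le_rfl, sub_self]
      exact (z.2.2.1.2.1 0 le_rfl).symm
    · intro t ht
      simp only [hst2]
      rw [if_pos (ht.trans hB)]
      exact (hH2 (w z) s).2.1 t ht
    · intro t ht
      rw [st2_end z s t ht, st2_end z s _ le_rfl]
  -- agreement of the stages
  have h12 : ∀ z s, s ≤ 0 → st1 B z b = st2 z s := by
    intro z s hs
    funext τ
    simp only [hst2]
    rw [hH3 (w z) s hs]
    show st1 B z b τ = if τ ≤ B then om z τ else z.1.2 (τ - B)
    unfold st1 om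
    by_cases h1 : τ ≤ a
    · rw [if_pos h1, if_pos (h1.trans haB'), if_pos h1]
    · rw [if_neg h1, if_neg h1, sub_self]
      by_cases h2 : τ ≤ B
      · rw [if_pos h2]
        by_cases h3 : a + b - τ ≤ 0
        · rw [z.2.2.1.2.1 _ h3]
          apply z.2.2.1.2.1
          exact max_le le_rfl (max_le h3 (by linarith))
        · congr 1
          rw [max_eq_left (by linarith : τ - B ≤ a + b - τ), max_eq_right (by linarith)]
      · rw [if_neg h2]
        rw [max_eq_right (by linarith : a + b - τ ≤ τ - B), max_eq_right (by linarith)]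
  have h23 : ∀ z s, 1 ≤ s → st2 z s = st3 B z 0 := by
    intro z s hs
    funext τ
    simp only [hst2]
    rw [hH4 (w z) s hs]
    unfold st3
    rw [sub_zero, one_mul]
    by_cases h1 : τ ≤ B
    · rw [if_pos h1]
      exact (z.2.2.1.2.1 _ (by linarith)).symm
    · rw [if_neg h1]
  have h3e : ∀ z : ↥(Qa p a b), st3 B z 1 = z.1.2 := by
    intro z
    funext τ
    unfold st3
    rw [sub_self, zero_mul, sub_zero]
  -- continuity of the stages
  have cc : Continuous (fun q : ↥(Qa p a b) × ℝ => q.1.1.2) :=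
    continuous_snd.comp (continuous_subtype_val.comp continuous_fst)
  have cγ : Continuous (fun q : ↥(Qa p a b) × ℝ => q.1.1.1) :=
    continuous_fst.comp (continuous_subtype_val.comp continuous_fst)
  have hcl : ∀ (q : ↥(Qa p a b) × ℝ) (s t : ℝ), dist (q.1.1.2 s) (q.1.1.2 t) ≤ |s - t| :=
    fun q => q.1.2.2.1.1
  have c1 : Continuous (fun q : ↥(Qa p a b) × ℝ => st1 B q.1 q.2) := by
    refine continuous_pi (fun τ => ?_)
    by_cases h : τ ≤ a
    · have : (fun q : ↥(Qa p a b) × ℝ => st1 B q.1 q.2 τ) = fun q => q.1.1.1 τ := by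
        funext q; simp only [st1, if_pos h]
      rw [this]
      exact (continuous_apply τ).comp cγ
    · have : (fun q : ↥(Qa p a b) × ℝ => st1 B q.1 q.2 τ) =
          fun q => q.1.1.2 (max (b - q.2) (max (a + b - τ) (τ - B))) := by
        funext q; simp only [st1, if_neg h]
      rw [this]
      exact eval_cont cc hcl (by fun_prop)
  have c2 : Continuous (fun q : ↥(Qa p a b) × ℝ => st2 q.1 q.2) := by
    refine continuous_pi (fun τ => ?_)
    by_cases h : τ ≤ B
    · have : (fun q : ↥(Qa p a b) × ℝ => st2 q.1 q.2 τ) = fun q => H (w q.1) q.2 τ := by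
        funext q; simp only [hst2, if_pos h]
      rw [this]
      exact (continuous_apply τ).comp (hH1.comp ((hwc.comp continuous_fst).prodMk continuous_snd))
    · have : (fun q : ↥(Qa p a b) × ℝ => st2 q.1 q.2 τ) = fun q => q.1.1.2 (τ - B) := by
        funext q; simp only [hst2, if_neg h]
      rw [this]
      exact (continuous_apply (τ - B)).comp cc
  have c3 : Continuous (fun q : ↥(Qa p a b) × ℝ => st3 B q.1 q.2) := by
    refine continuous_pi (fun τ => ?_)
    exact eval_cont (F := fun q : ↥(Qa p a b) × ℝ => q.1.1.2)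
      (τ := fun q : ↥(Qa p a b) × ℝ => τ - (1 - q.2) * B) cc hcl (by fun_prop)
  -- the homotopy
  set C : ↥(Qa p a b) → ℝ → ℝ → X := fun z s =>
    if s ≤ 5 / 12 then st1 B z (b * max 0 (min 1 (6 * (s - 1 / 4))))
    else if s ≤ 7 / 12 then st2 z (6 * (s - 5 / 12))
    else st3 B z (max 0 (min 1 (6 * (s - 7 / 12)))) with hC
  have hCs : ∀ z s, (C z s ∈ Pa p (B + b) ∧ C z s (B + b) = z.1.1 a) := by
    intro z s
    simp only [hC]
    split_ifs with h1 h2
    · have hv : 0 ≤ b * max 0 (min 1 (6 * (s - 1 / 4))) := mul_nonneg hb (cl_mem _).1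
      exact ⟨st1_pa ha haB hb z hv, st1_end haB hb z le_rfl⟩
    · exact ⟨st2_pa z _, st2_end z _ _ le_rfl⟩
    · exact st3_pa hB z (cl_mem _).1 (cl_mem _).2
  have g1 : Continuous (fun q : ↥(Qa p a b) × ℝ =>
      (q.1, b * max 0 (min 1 (6 * (q.2 - 1 / 4))))) := by fun_prop
  have g2 : Continuous (fun q : ↥(Qa p a b) × ℝ => (q.1, 6 * (q.2 - 5 / 12))) := by fun_prop
  have g3 : Continuous (fun q : ↥(Qa p a b) × ℝ =>
      (q.1, max 0 (min 1 (6 * (q.2 - 7 / 12))))) := by fun_prop
  refine ⟨C, ?_, fun z s => (hCs z s).1, fun z s => (hCs z s).2, ?_, ?_, ?_⟩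
  · refine Continuous.if_le ?_ ?_ continuous_snd continuous_const ?_
    · exact c1.comp g1
    · refine Continuous.if_le ?_ ?_ continuous_snd continuous_const ?_
      · exact c2.comp g2
      · exact c3.comp g3
      · intro q hq
        rw [hq, h23 _ _ (by norm_num), cl_zero (by norm_num)]
    · intro q hq
      rw [if_pos (by rw [hq]; norm_num), hq, cl_one (by norm_num), mul_one]
      exact h12 _ _ (by norm_num)
  · intro z s hs
    simp only [hC]
    rw [if_pos (by linarith), cl_zero (by linarith), mul_zero, st1_zero]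
  · intro z s hs
    simp only [hC]
    rw [if_neg (by linarith), if_neg (by linarith), cl_one (by linarith), h3e]
  · intro z hz1 hz2 s
    have hom : (w z).1 = fun _ => p := by
      show om z = fun _ => p
      funext τ
      unfold om
      rw [hz1, hz2]
      split_ifs <;> rfl
    simp only [hC]
    split_ifs with h1 h2
    · funext τ
      unfold st1
      rw [hz1, hz2]
      split_ifs <;> rfl
    · funext τ
      have e : H (w z) (6 * (s - 5 / 12)) = fun _ => p := (hH5 (w z) hom _).trans hom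
      simp only [hst2]
      rw [e, hz2]
      split_ifs <;> rfl
    · funext τ
      unfold st3
      rw [hz2]

end Pool.Agent.Y467.GE
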