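import Pool.Agent.Y489.GE.Stm

/-!
# Project GE: the geodesics between near points depend continuously on the end points
-/

set_option autoImplicit false

open Set Topology Filter

namespace Pool.Agent.Y467.GE

open Pool.Agent.Y489.GE

theorem t_MG : S_MG := by
  intro X _ _ r hr hG hU
  choose m hm0 hm1 hmd using hG
  have hl : ∀ x y : X, ∀ t ∈ Icc (0 : ℝ) 1, dist x (m x y t) = t * dist x y := by
    intro x y t ht
    have h := hmd x y 0 ⟨le_rfl, zero_le_one⟩ t ht
    rwa [hm0, zero_sub, abs_neg, abs_of_nonneg ht.1] at h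
  have hrt : ∀ x y : X, ∀ t ∈ Icc (0 : ℝ) 1, dist (m x y t) y = (1 - t) * dist x y := by
    intro x y t ht
    have h := hmd x y t ht 1 ⟨zero_le_one, le_rfl⟩
    rwa [hm1, abs_sub_comm, abs_of_nonneg (by linarith [ht.2])] at h
  refine ⟨m, ?_, fun x y _ => hm0 x y, fun x y _ => hm1 x y, fun x y _ => hmd x y⟩
  rintro ⟨x, y, t⟩ ⟨hd, ht⟩
  simp only at hd ht
  show Tendsto (fun q : X × X × ℝ => m q.1 q.2.1 q.2.2) _ (𝓝 (m x y t))
  rw [tendsto_iff_ultrafilter]
  intro g hg
  have hg1 : (g : Filter (X × X × ℝ)) ≤ 𝓝 (x, y, t) := hg.trans nhdsWithin_le_nhds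
  have hgS : ∀ᶠ q : X × X × ℝ in (g : Filter (X × X × ℝ)),
      dist q.1 q.2.1 ≤ r / 2 ∧ q.2.2 ∈ Icc (0 : ℝ) 1 := hg self_mem_nhdsWithin
  obtain ⟨w, -, hw⟩ := (isCompact_univ : IsCompact (univ : Set X)).ultrafilter_le_nhds
    (g.map (fun q : X × X × ℝ => m q.1 q.2.1 q.2.2)) (by simp)
  have hw' : Tendsto (fun q : X × X × ℝ => m q.1 q.2.1 q.2.2) (g : Filter (X × X × ℝ)) (𝓝 w) := hw
  have hx : Tendsto (fun q : X × X × ℝ => q.1) (g : Filter (X × X × ℝ)) (𝓝 x) :=
    (continuous_fst.tendsto (x, y, t)).mono_left hg1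
  have hy : Tendsto (fun q : X × X × ℝ => q.2.1) (g : Filter (X × X × ℝ)) (𝓝 y) :=
    ((continuous_fst.comp continuous_snd).tendsto (x, y, t)).mono_left hg1
  have htt : Tendsto (fun q : X × X × ℝ => q.2.2) (g : Filter (X × X × ℝ)) (𝓝 t) :=
    ((continuous_snd.comp continuous_snd).tendsto (x, y, t)).mono_left hg1
  have e1 : dist x w = t * dist x y := by
    refine tendsto_nhds_unique (hx.dist hw') ((htt.mul (hx.dist hy)).congr' ?_)
    filter_upwards [hgS] with q hq
    exact (hl _ _ _ hq.2).symm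
  have e2 : dist w y = (1 - t) * dist x y := by
    refine tendsto_nhds_unique (hw'.dist hy) (((tendsto_const_nhds.sub htt).mul
      (hx.dist hy)).congr' ?_)
    filter_upwards [hgS] with q hq
    exact (hrt _ _ _ hq.2).symm
  have e3 : m x y t = w := by
    refine hU x y (m x y t) w (by linarith) ?_ ?_ ?_
    · rw [hl x y t ht, hrt x y t ht]; ring
    · rw [e1, e2]; ring
    · rw [hl x y t ht, e1]
  rw [e3]
  exact hw'

end Pool.Agent.Y467.GE
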