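import Pool.Agent.Y489.GE.Stm

/-!
# Project GE: one step of the construction
-/

set_option autoImplicit false

open Set Topology Filter

namespace Pool.Agent.Y467.GE

open Pool.Agent.Y489.GE

theorem t_STEP : S_STEP := by
  classical
  intro X K _ _ p a b B ha hb haB hbB hCP f A T t Γ ρ hT ht hT0 ht0 hΓ hρ hΓp hρp hΓA hρA
  obtain ⟨C, hC, hCP', hCB, hC0, hC1, hCst⟩ := hCP
  have hz : ∀ k : K, 0 < T k ∧ 0 < t k → ((Γ k, ρ k) : (ℝ → X) × (ℝ → X)) ∈ Qa p a b := by
    intro k hk
    exact ⟨(hΓp k hk.1).1, (hρp k hk.2).1, (hΓp k hk.1).2.trans (hρp k hk.2).2.symm⟩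
  set Γ' : K → ℝ → X := fun k => if h : 0 < T k ∧ 0 < t k then
    C ⟨(Γ k, ρ k), hz k h⟩ (t k / (T k + t k)) else if 0 < T k then Γ k else ρ k with hΓ'
  have hpos : ∀ k (h : 0 < T k ∧ 0 < t k), Γ' k = C ⟨(Γ k, ρ k), hz k h⟩ (t k / (T k + t k)) := by
    intro k h
    simp only [hΓ']
    rw [dif_pos h]
  have hposT : ∀ k, 0 < T k → ¬ 0 < t k → Γ' k = Γ k := by
    intro k h1 h2
    simp only [hΓ']
    rw [dif_neg (fun h => h2 h.2), if_pos h1]
  have hpost : ∀ k, ¬ 0 < T k → Γ' k = ρ k := by
    intro k h1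
    simp only [hΓ']
    rw [dif_neg (fun h => h1 h.1), if_neg h1]
  have hs : ∀ k₀, 0 < T k₀ + t k₀ → ContinuousAt (fun k => t k / (T k + t k)) k₀ := by
    intro k₀ h
    exact ht.continuousAt.div (hT.continuousAt.add ht.continuousAt) h.ne'
  refine ⟨Γ', ?_, ?_, ?_⟩
  · intro k₀ hk₀
    have hk₀' : 0 < T k₀ + t k₀ := hk₀
    apply ContinuousAt.continuousWithinAt
    by_cases h1 : 0 < T k₀
    · by_cases h2 : 0 < t k₀
      · -- both positive
        have hO : IsOpen {k | 0 < T k ∧ 0 < t k} :=
          (isOpen_lt continuous_const hT).inter (isOpen_lt continuous_const ht)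
        have hon : ContinuousOn Γ' {k | 0 < T k ∧ 0 < t k} := by
          rw [continuousOn_iff_continuous_domRestrict]
          have heq : Set.domRestrict {k | 0 < T k ∧ 0 < t k} Γ' =
              fun k : {k | 0 < T k ∧ 0 < t k} =>
                C ⟨(Γ k, ρ k), hz k k.2⟩ (t k / (T k + t k)) := by
            funext k
            exact hpos k k.2
          rw [heq]
          have c1 : Continuous (fun k : {k | 0 < T k ∧ 0 < t k} => Γ k) :=
            continuousOn_iff_continuous_domRestrict.mp (hΓ.mono (fun k hk => hk.1))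
          have c2 : Continuous (fun k : {k | 0 < T k ∧ 0 < t k} => ρ k) :=
            continuousOn_iff_continuous_domRestrict.mp (hρ.mono (fun k hk => hk.2))
          have c3 : Continuous (fun k : {k | 0 < T k ∧ 0 < t k} => t k / (T k + t k)) := by
            refine (ht.comp continuous_subtype_val).div
              ((hT.comp continuous_subtype_val).add (ht.comp continuous_subtype_val)) ?_
            intro k
            exact (add_pos k.2.1 k.2.2).ne'
          have c4 : Continuous (fun k : {k | 0 < T k ∧ 0 < t k} =>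
              ((⟨(Γ k, ρ k), hz k k.2⟩ : ↥(Qa p a b)), t k / (T k + t k))) :=
            ((c1.prodMk c2).subtype_mk _).prodMk c3
          exact hC.comp c4
        exact hon.continuousAt (hO.mem_nhds ⟨h1, h2⟩)
      · -- only `T` positive
        have ht00 : t k₀ = 0 := le_antisymm (not_lt.mp h2) (ht0 k₀)
        have hev : Γ' =ᶠ[𝓝 k₀] Γ := by
          have e1 : ∀ᶠ k in 𝓝 k₀, 0 < T k := (isOpen_lt continuous_const hT).mem_nhds h1
          have e2 : ∀ᶠ k in 𝓝 k₀, t k / (T k + t k) < 1 / 4 := by
            apply (hs k₀ hk₀').eventually_lt_const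
            show t k₀ / (T k₀ + t k₀) < 1 / 4
            rw [ht00, zero_div]; norm_num
          filter_upwards [e1, e2] with k hk1 hk2
          by_cases hk3 : 0 < t k
          · rw [hpos k ⟨hk1, hk3⟩, hC0 _ _ hk2.le]
          · exact hposT k hk1 hk3
        exact (hΓ.continuousAt ((isOpen_lt continuous_const hT).mem_nhds h1)).congr hev.symm
    · -- only `t` positive
      have hT00 : T k₀ = 0 := le_antisymm (not_lt.mp h1) (hT0 k₀)
      have h2 : 0 < t k₀ := by linarith
      have hev : Γ' =ᶠ[𝓝 k₀] ρ := by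
        have e1 : ∀ᶠ k in 𝓝 k₀, 0 < t k := (isOpen_lt continuous_const ht).mem_nhds h2
        have e2 : ∀ᶠ k in 𝓝 k₀, 3 / 4 < t k / (T k + t k) := by
          apply (hs k₀ hk₀').eventually_const_lt
          show 3 / 4 < t k₀ / (T k₀ + t k₀)
          rw [hT00, zero_add, div_self h2.ne']; norm_num
        filter_upwards [e1, e2] with k hk1 hk2
        by_cases hk3 : 0 < T k
        · rw [hpos k ⟨hk3, hk1⟩, hC1 _ _ hk2.le]
        · exact hpost k hk3
      exact (hρ.continuousAt ((isOpen_lt continuous_const ht).mem_nhds h2)).congr hev.symm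
  · intro k hk
    by_cases h1 : 0 < T k
    · by_cases h2 : 0 < t k
      · rw [hpos k ⟨h1, h2⟩]
        exact ⟨hCP' _ _, (hCB _ _).trans (hΓp k h1).2⟩
      · rw [hposT k h1 h2]
        obtain ⟨h3, h4⟩ := hΓp k h1
        exact ⟨Pa.mono haB h3, (h3.2.2 B haB).trans h4⟩
    · have h2 : 0 < t k := by
        have := hT0 k
        have h3 : T k = 0 := le_antisymm (not_lt.mp h1) this
        linarith
      rw [hpost k h1]
      obtain ⟨h3, h4⟩ := hρp k h2
      exact ⟨Pa.mono hbB h3, (h3.2.2 B hbB).trans h4⟩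
  · intro k hkA hk
    by_cases h1 : 0 < T k
    · by_cases h2 : 0 < t k
      · rw [hpos k ⟨h1, h2⟩]
        exact hCst _ (hΓA k hkA h1) (hρA k hkA h2) _
      · rw [hposT k h1 h2]
        exact hΓA k hkA h1
    · have h2 : 0 < t k := by
        have := hT0 k
        have h3 : T k = 0 := le_antisymm (not_lt.mp h1) this
        linarith
      rw [hpost k h1]
      exact hρA k hkA h2

end Pool.Agent.Y467.GE
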